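import Pool.Agent.H63.PK.Targets

/-!
# Primitive weight systems and Lin's question (MP_559314_gt): row EXP

The exponential of weight systems.
-/

set_option autoImplicit false

open Finset Pool.Agent.H59.LIN Pool.Agent.H13.LN Pool.Agent.H63.PK

namespace Pool.Agent.H74.PK

theorem gw_of_clo {l : List ℕ} (h : ∀ a ∈ l, l.count a = 2) : Gw l.toFinset.card l := by
  refine ⟨?_, h⟩
  rw [← List.sum_toFinset_count_eq_length l, Finset.sum_congr rfl (fun a ha =>
    h a (List.mem_toFinset.1 ha)), Finset.sum_const, smul_eq_mul, mul_comm]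

theorem count_rs (J : Finset ℕ) (l : List ℕ) (a : ℕ) (ha : a ∈ J) :
    (rs J l).count a = l.count a := by
  unfold rs
  exact List.count_filter (by simpa using ha)

theorem mem_rs {J : Finset ℕ} {l : List ℕ} {a : ℕ} : a ∈ rs J l ↔ a ∈ l ∧ a ∈ J := by
  unfold rs
  rw [List.mem_filter, decide_eq_true_iff]

theorem gw_rs {d : ℕ} {l : List ℕ} (h : Gw d l) (J : Finset ℕ) :
    Gw (rs J l).toFinset.card (rs J l) := by
  apply gw_of_clo
  intro a ha
  obtain ⟨h1, h2⟩ := mem_rs.1 ha
  rw [count_rs J l a h2, h.2 a h1]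

theorem rs_append (J : Finset ℕ) (l m : List ℕ) : rs J (l ++ m) = rs J l ++ rs J m := by
  unfold rs
  exact List.filter_append l m

theorem rs_cons_mem {J : Finset ℕ} {a : ℕ} (ha : a ∈ J) (l : List ℕ) :
    rs J (a :: l) = a :: rs J l := by
  unfold rs
  rw [List.filter_cons, if_pos (by simpa using ha)]

theorem rs_cons_not {J : Finset ℕ} {a : ℕ} (ha : a ∉ J) (l : List ℕ) :
    rs J (a :: l) = rs J l := by
  unfold rs
  rw [List.filter_cons, if_neg (by simpa using ha)]

theorem rs_nil (J : Finset ℕ) : rs J [] = [] := rfl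

theorem rs_eq_nil {J : Finset ℕ} {l : List ℕ} (h : ∀ a ∈ l, a ∉ J) : rs J l = [] := by
  unfold rs
  rw [List.filter_eq_nil_iff]
  intro a ha
  simpa using h a ha

variable {A : Type} [CommRing A]

/-- the exponential by the blocks which contain the letter `a` -/
theorem ex_rec (hA : T_ESA) (g : List ℕ → A) (l : List ℕ) (a : ℕ) (ha : a ∈ l) :
    Ex g l = ∑ J ∈ l.toFinset.powerset.filter (fun J => a ∈ J),
      g (rs J l) * Es (fun K => g (rs K l)) (l.toFinset \ J) := by
  unfold Ex
  exact (hA A (fun J => g (rs J l))).2 l.toFinset a (List.mem_toFinset.2 ha)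

theorem es_congr (hB : T_ESB) (g : List ℕ → A) (T J : Finset ℕ) (l l' : List ℕ)
    (h : ∀ K ⊆ T \ J, rs K l = rs K l') :
    Es (fun K => g (rs K l)) (T \ J) = Es (fun K => g (rs K l')) (T \ J) := by
  refine hB.1 A _ _ _ fun K hK _ => ?_
  show g (rs K l) = g (rs K l')
  rw [h K hK]

theorem not_mem_of {T J K : Finset ℕ} {a : ℕ} (hK : K ⊆ T \ J) (ha : a ∈ J) : a ∉ K :=
  fun h => (Finset.mem_sdiff.1 (hK h)).2 ha

theorem exp_row (hA : T_ESA) (hB : T_ESB) : T_EXP := by
  intro A _ g hg
  refine ⟨fun d => ⟨?_, ?_, ?_, ?_⟩, ?_, ?_⟩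
  · -- names
    intro l f hl hf
    unfold Ex
    have h1 : (l.map f).toFinset = l.toFinset.image f := by
      ext b
      simp only [List.mem_toFinset, List.mem_map, Finset.mem_image]
    have hinj : Set.InjOn f {a | a ∈ l.toFinset} := by
      intro x hx y hy hxy
      exact hf (List.mem_toFinset.1 hx) (List.mem_toFinset.1 hy) hxy
    rw [h1, hB.2.1 A _ _ f hinj]
    refine hB.1 A _ _ _ fun J hJ _ => ?_
    show g (rs (J.image f) (l.map f)) = g (rs J l)
    have h2 : rs (J.image f) (l.map f) = (rs J l).map f := by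
      unfold rs
      rw [List.filter_map]
      congr 1
      apply List.filter_congr
      intro a ha
      rw [Function.comp_apply, decide_eq_decide]
      constructor
      · intro h
        obtain ⟨b, hb, hbf⟩ := Finset.mem_image.1 h
        have : b = a := hf (List.mem_toFinset.1 (hJ hb)) ha hbf
        rwa [this] at hb
      · intro h
        exact Finset.mem_image_of_mem f h
    rw [h2]
    exact (hg _).relab _ f (gw_rs hl J) (hf.mono fun a ha => (mem_rs.1 ha).1)
  · -- base point
    intro a l hl
    rw [ex_rec hA g (l ++ [a]) a (by simp), ex_rec hA g (a :: l) a (by simp)]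
    have hT : (l ++ [a]).toFinset = (a :: l).toFinset := by
      ext b
      simp only [List.mem_toFinset, List.mem_append, List.mem_cons, List.not_mem_nil, or_false]
      exact or_comm
    rw [hT]
    refine Finset.sum_congr rfl fun J hJ => ?_
    have haJ := (Finset.mem_filter.1 hJ).2
    have h1 : g (rs J (l ++ [a])) = g (rs J (a :: l)) := by
      have h2 := gw_rs hl J
      rw [rs_append, rs_cons_mem haJ, rs_nil, rs_cons_mem haJ]
      rw [rs_cons_mem haJ] at h2
      exact (hg _).rot a _ h2
    rw [h1]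
    congr 1
    refine es_congr hB g _ J _ _ fun K hK => ?_
    have haK := not_mem_of hK haJ
    rw [rs_append, rs_cons_not haK, rs_cons_not haK, rs_nil, List.append_nil]
  · -- isolated chords
    intro X Y a hl
    rw [ex_rec hA g _ a (by simp)]
    refine Finset.sum_eq_zero fun J hJ => ?_
    have haJ := (Finset.mem_filter.1 hJ).2
    have h2 := gw_rs hl J
    rw [rs_append, rs_cons_mem haJ, rs_cons_mem haJ] at h2 ⊢
    rw [(hg _).isol _ _ _ h2, zero_mul]
  · -- four terms
    intro X Y Z a b hl
    rw [ex_rec hA g (X ++ a :: b :: (Y ++ a :: Z)) a (by simp),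
      ex_rec hA g (X ++ b :: a :: (Y ++ a :: Z)) a (by simp),
      ex_rec hA g (X ++ a :: (Y ++ a :: b :: Z)) a (by simp),
      ex_rec hA g (X ++ a :: (Y ++ b :: a :: Z)) a (by simp)]
    have hT2 : (X ++ b :: a :: (Y ++ a :: Z)).toFinset =
        (X ++ a :: b :: (Y ++ a :: Z)).toFinset := by
      ext c
      simp only [List.mem_toFinset, List.mem_append, List.mem_cons]
      tauto
    have hT3 : (X ++ a :: (Y ++ a :: b :: Z)).toFinset =
        (X ++ a :: b :: (Y ++ a :: Z)).toFinset := by
      ext c
      simp only [List.mem_toFinset, List.mem_append, List.mem_cons]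
      tauto
    have hT4 : (X ++ a :: (Y ++ b :: a :: Z)).toFinset =
        (X ++ a :: b :: (Y ++ a :: Z)).toFinset := by
      ext c
      simp only [List.mem_toFinset, List.mem_append, List.mem_cons]
      tauto
    rw [hT2, hT3, hT4, ← Finset.sum_sub_distrib, ← Finset.sum_add_distrib,
      ← Finset.sum_sub_distrib]
    refine Finset.sum_eq_zero fun J hJ => ?_
    have haJ := (Finset.mem_filter.1 hJ).2
    set T := (X ++ a :: b :: (Y ++ a :: Z)).toFinset with hTdef
    have hE12 : Es (fun K => g (rs K (X ++ b :: a :: (Y ++ a :: Z)))) (T \ J) =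
        Es (fun K => g (rs K (X ++ a :: b :: (Y ++ a :: Z)))) (T \ J) := by
      refine es_congr hB g _ J _ _ fun K hK => ?_
      have haK := not_mem_of hK haJ
      by_cases hbK : b ∈ K
      · simp only [rs_append, rs_cons_not haK, rs_cons_mem hbK]
      · simp only [rs_append, rs_cons_not haK, rs_cons_not hbK]
    have hE34 : Es (fun K => g (rs K (X ++ a :: (Y ++ b :: a :: Z)))) (T \ J) =
        Es (fun K => g (rs K (X ++ a :: (Y ++ a :: b :: Z)))) (T \ J) := by
      refine es_congr hB g _ J _ _ fun K hK => ?_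
      have haK := not_mem_of hK haJ
      by_cases hbK : b ∈ K
      · simp only [rs_append, rs_cons_not haK, rs_cons_mem hbK]
      · simp only [rs_append, rs_cons_not haK, rs_cons_not hbK]
    rw [hE12, hE34]
    by_cases hbJ : b ∈ J
    · have hE13 : Es (fun K => g (rs K (X ++ a :: (Y ++ a :: b :: Z)))) (T \ J) =
          Es (fun K => g (rs K (X ++ a :: b :: (Y ++ a :: Z)))) (T \ J) := by
        refine es_congr hB g _ J _ _ fun K hK => ?_
        have haK := not_mem_of hK haJ
        have hbK := not_mem_of hK hbJ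
        simp only [rs_append, rs_cons_not haK, rs_cons_not hbK]
      rw [hE13, ← sub_mul, ← add_mul, ← sub_mul]
      have h2 := gw_rs hl J
      simp only [rs_append, rs_cons_mem haJ, rs_cons_mem hbJ] at h2 ⊢
      rw [(hg _).four _ _ _ _ _ h2, zero_mul]
    · simp only [rs_append, rs_cons_mem haJ, rs_cons_not hbJ]
      ring
  · -- the empty word
    unfold Ex
    exact (hA A _).1
  · -- products
    intro hp a b d l m hl hm hlm
    have hdis : ∀ c, c ∈ l → c ∉ m := by
      intro c h1 h2
      have h3 := hlm.2 c (List.mem_append_left _ h1)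
      rw [List.count_append, hl.2 c h1, hm.2 c h2] at h3
      omega
    have hDT : Disjoint l.toFinset m.toFinset := by
      rw [Finset.disjoint_left]
      intro c h1 h2
      exact hdis c (List.mem_toFinset.1 h1) (List.mem_toFinset.1 h2)
    have hpos : ∀ (J : Finset ℕ) (w : List ℕ), (J ∩ w.toFinset).Nonempty →
        0 < (rs J w).toFinset.card := by
      rintro J w ⟨c, hc⟩
      obtain ⟨h1, h2⟩ := Finset.mem_inter.1 hc
      exact Finset.card_pos.2 ⟨c, List.mem_toFinset.2 (mem_rs.2 ⟨List.mem_toFinset.1 h2, h1⟩)⟩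
    have key := hB.2.2.2 A (fun J => g (rs J (l ++ m))) l.toFinset m.toFinset hDT (by
      intro J _ h1 h2
      show g (rs J (l ++ m)) = 0
      have h3 := gw_rs hlm J
      rw [rs_append] at h3 ⊢
      exact (hp _).prim _ _ _ _ (hpos J l h1) (hpos J m h2) (gw_rs hl J) (gw_rs hm J) h3)
    unfold Ex
    rw [List.toFinset_append, key]
    congr 1
    · refine hB.1 A _ _ _ fun J hJ _ => ?_
      show g (rs J (l ++ m)) = g (rs J l)
      rw [rs_append, rs_eq_nil (l := m) (fun c hc hcJ =>
        hdis c (List.mem_toFinset.1 (hJ hcJ)) hc), List.append_nil]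
    · refine hB.1 A _ _ _ fun J hJ _ => ?_
      show g (rs J (l ++ m)) = g (rs J m)
      rw [rs_append, rs_eq_nil (l := l) (fun c hc hcJ =>
        hdis c hc (List.mem_toFinset.1 (hJ hcJ))), List.nil_append]

end Pool.Agent.H74.PK
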